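import Mathlib

/-!
# Mahler measures of polynomials with a weakly dominating coefficient
-/

set_option autoImplicit false

open Polynomial Real

namespace Pool.Agent.R719.RD

theorem log_mono {p q : ℂ[X]} (hq : q ≠ 0)
    (h : ∀ z : ℂ, ‖z‖ = 1 → ‖q.eval z‖ ≤ ‖p.eval z‖) :
    q.logMahlerMeasure ≤ p.logMahlerMeasure := by
  rw [logMahlerMeasure_def, logMahlerMeasure_def, circleAverage, circleAverage]
  refine smul_le_smul_of_nonneg_left ?_ (by positivity)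
  refine intervalIntegral.integral_mono_ae (by positivity) (intervalIntegrable_mahlerMeasure q)
    (intervalIntegrable_mahlerMeasure p) ?_
  have hc : ((circleMap 0 1) ⁻¹' (q.rootSet ℂ)).Countable :=
    Set.Countable.preimage_circleMap (rootSet_finite q ℂ).countable 0 one_ne_zero
  filter_upwards [hc.ae_notMem MeasureTheory.volume] with θ hθ
  have hne : q.eval (circleMap 0 1 θ) ≠ 0 := by
    intro h0
    apply hθ
    rw [Set.mem_preimage, mem_rootSet]
    exact ⟨hq, by rw [coe_aeval_eq_eval]; exact h0⟩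
  exact Real.log_le_log (norm_pos_iff.2 hne) (h _ (by simp))

theorem mahler_mono {p q : ℂ[X]} (hp : p ≠ 0)
    (h : ∀ z : ℂ, ‖z‖ = 1 → ‖q.eval z‖ ≤ ‖p.eval z‖) :
    q.mahlerMeasure ≤ p.mahlerMeasure := by
  rcases eq_or_ne q 0 with rfl | hq
  · rw [mahlerMeasure_zero]
    exact mahlerMeasure_nonneg p
  rw [mahlerMeasure_def_of_ne_zero hp, mahlerMeasure_def_of_ne_zero hq]
  have := log_mono hq h
  rw [logMahlerMeasure_def, logMahlerMeasure_def] at this
  exact Real.exp_le_exp.2 this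

theorem mm_pow (p : ℂ[X]) (n : ℕ) : (p ^ n).mahlerMeasure = p.mahlerMeasure ^ n := by
  induction n with
  | zero => simp
  | succ n ih => rw [pow_succ, mahlerMeasure_mul, ih, pow_succ]

/-- a weighted inequality between arithmetic and geometric means -/
theorem amgm9 {A B : ℝ} (hA : 0 ≤ A) (hB : 0 ≤ B) :
    (9 / 8 * A) ^ 8 * (9 * B) ≤ (A + B) ^ 9 := by
  have h := Real.geom_mean_le_arith_mean2_weighted (w₁ := 8 / 9) (w₂ := 1 / 9)
    (p₁ := 9 / 8 * A) (p₂ := 9 * B) (by norm_num) (by norm_num) (by positivity) (by positivity)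
    (by norm_num)
  have h2 : 8 / 9 * (9 / 8 * A) + 1 / 9 * (9 * B) = A + B := by ring
  rw [h2] at h
  have h3 := pow_le_pow_left₀ (by positivity) h 9
  refine le_trans (le_of_eq ?_) h3
  have e1 : ((9 / 8 * A) ^ ((8 / 9 : ℝ))) ^ 9 = (9 / 8 * A) ^ 8 := by
    rw [← Real.rpow_natCast ((9 / 8 * A) ^ ((8 / 9 : ℝ))), ← Real.rpow_mul (by positivity),
      ← Real.rpow_natCast (9 / 8 * A)]
    norm_num
  have e2 : ((9 * B) ^ ((1 / 9 : ℝ))) ^ 9 = 9 * B := by
    rw [← Real.rpow_natCast ((9 * B) ^ ((1 / 9 : ℝ))), ← Real.rpow_mul (by positivity)]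
    norm_num
  rw [mul_pow ((9 / 8 * A) ^ ((8 / 9 : ℝ))), e1, e2]

theorem key {P Qx Qy R : ℂ[X]} (hP : P ≠ 0) {a b : ℝ} (ha : 0 < a) (hb : 0 < b)
    (hx : a ≤ Qx.mahlerMeasure) (hy : b ≤ Qy.mahlerMeasure) (hR : b ≤ R.mahlerMeasure)
    (h1 : ∀ z : ℂ, ‖z‖ = 1 → ‖Qx.eval z‖ + ‖Qy.eval z‖ ≤ 2 * ‖P.eval z‖)
    (h2 : ∀ z : ℂ, ‖z‖ = 1 → ‖R.eval z‖ ≤ |‖Qx.eval z‖ - ‖Qy.eval z‖|) :
    9 / 8 * (a * b) ≤ P.mahlerMeasure ^ 2 := by
  have hC2 : (C (2 : ℂ)) ≠ 0 := by simp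
  have hP0 := mahlerMeasure_nonneg P
  have hQx0 := mahlerMeasure_nonneg Qx
  have hQy0 := mahlerMeasure_nonneg Qy
  have hR0 := mahlerMeasure_nonneg R
  rcases le_total a (2 * b) with hab | hab
  · have h := mahler_mono (p := (C 2 * P) ^ 18)
      (q := C (((9 / 2) ^ 8 * 9 : ℝ) : ℂ) * ((Qx * Qy) ^ 8 * R ^ 2))
      (pow_ne_zero _ (mul_ne_zero hC2 hP)) ?_
    · rw [mahlerMeasure_mul, mahlerMeasure_const, mahlerMeasure_mul, mm_pow, mm_pow, mm_pow,
        mahlerMeasure_mul, mahlerMeasure_mul, mahlerMeasure_const, Complex.norm_real] at h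
      have h3 : (a * b) ^ 8 * b ^ 2 ≤ (Qx.mahlerMeasure * Qy.mahlerMeasure) ^ 8 *
          R.mahlerMeasure ^ 2 := by
        gcongr
      have h4 : ‖(2 : ℂ)‖ = 2 := by simp
      have h5 : ‖((9 / 2) ^ 8 * 9 : ℝ)‖ = (9 / 2) ^ 8 * 9 := by
        rw [Real.norm_eq_abs, abs_of_pos (by norm_num)]
      rw [h4, h5] at h
      have h6 : (9 / 8 * (a * b)) ^ 9 ≤ (P.mahlerMeasure ^ 2) ^ 9 := by
        have h7 : (a * b) ^ 8 * (a * b) ≤ 2 * ((a * b) ^ 8 * b ^ 2) := by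
          have : a * b ≤ 2 * b ^ 2 := by nlinarith
          calc (a * b) ^ 8 * (a * b) ≤ (a * b) ^ 8 * (2 * b ^ 2) := by gcongr
            _ = _ := by ring
        have h8 : ((9 / 2 : ℝ)) ^ 8 * 9 * ((a * b) ^ 8 * b ^ 2) ≤ (2 * P.mahlerMeasure) ^ 18 :=
          le_trans (by gcongr) h
        have h9 : (2 * P.mahlerMeasure) ^ 18 = 2 ^ 18 * (P.mahlerMeasure ^ 2) ^ 9 := by ring
        rw [h9] at h8
        have h10 : (9 / 8 * (a * b)) ^ 9 = (9 / 8) ^ 9 * ((a * b) ^ 8 * (a * b)) := by ring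
        rw [h10]
        nlinarith [h7, h8]
      exact (pow_le_pow_iff_left₀ (by positivity) (by positivity) (by norm_num)).1 h6
    · intro z hz
      have e1 := h1 z hz
      have e2 := h2 z hz
      rw [eval_mul, eval_C, eval_mul, eval_pow, eval_mul, eval_pow, eval_pow, eval_mul, eval_C,
        norm_mul, norm_mul, norm_pow, norm_pow, norm_pow, norm_mul, norm_mul, Complex.norm_real,
        Real.norm_eq_abs, abs_of_pos (by norm_num : (0 : ℝ) < (9 / 2) ^ 8 * 9)]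
      have h4 : ‖(2 : ℂ)‖ = 2 := by simp
      rw [h4]
      set x := ‖Qx.eval z‖ with hx'
      set y := ‖Qy.eval z‖ with hy'
      have hx0 : 0 ≤ x := norm_nonneg _
      have hy0 : 0 ≤ y := norm_nonneg _
      have h5 : ‖R.eval z‖ ^ 2 ≤ (x - y) ^ 2 := by
        rw [← sq_abs (x - y)]
        gcongr
      have h6 := amgm9 (A := 4 * (x * y)) (B := (x - y) ^ 2) (by positivity) (by positivity)
      have h7 : 4 * (x * y) + (x - y) ^ 2 = (x + y) ^ 2 := by ring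
      rw [h7] at h6
      calc (9 / 2) ^ 8 * 9 * ((x * y) ^ 8 * ‖R.eval z‖ ^ 2)
          ≤ (9 / 2) ^ 8 * 9 * ((x * y) ^ 8 * (x - y) ^ 2) := by gcongr
        _ = (9 / 8 * (4 * (x * y))) ^ 8 * (9 * (x - y) ^ 2) := by ring
        _ ≤ ((x + y) ^ 2) ^ 9 := h6
        _ = (x + y) ^ 18 := by ring
        _ ≤ _ := by gcongr
  · have h := mahler_mono (p := (C 2 * P) ^ 3)
      (q := C ((27 / 4 : ℝ) : ℂ) * (Qx ^ 2 * Qy))
      (pow_ne_zero _ (mul_ne_zero hC2 hP)) ?_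
    · rw [mahlerMeasure_mul, mahlerMeasure_const, mahlerMeasure_mul, mm_pow, mm_pow,
        mahlerMeasure_mul, mahlerMeasure_const, Complex.norm_real] at h
      have h3 : a ^ 2 * b ≤ Qx.mahlerMeasure ^ 2 * Qy.mahlerMeasure := by
        gcongr
      have h4 : ‖(2 : ℂ)‖ = 2 := by simp
      have h5 : ‖(27 / 4 : ℝ)‖ = 27 / 4 := by
        rw [Real.norm_eq_abs, abs_of_pos (by norm_num)]
      rw [h4, h5] at h
      have h6 : (9 / 8 * (a * b)) ^ 3 ≤ (P.mahlerMeasure ^ 2) ^ 3 := by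
        have h8 : (27 / 4 : ℝ) * (a ^ 2 * b) ≤ (2 * P.mahlerMeasure) ^ 3 :=
          le_trans (by gcongr) h
        have h9 : ((27 / 4 : ℝ) * (a ^ 2 * b)) ^ 2 ≤ ((2 * P.mahlerMeasure) ^ 3) ^ 2 := by
          gcongr
        have h10 : ((2 * P.mahlerMeasure) ^ 3) ^ 2 = 64 * (P.mahlerMeasure ^ 2) ^ 3 := by ring
        have h11 : (a ^ 3 * b ^ 2) * (2 * b) ≤ (a ^ 3 * b ^ 2) * a := by gcongr
        rw [h10] at h9
        nlinarith [h9, h11]
      exact (pow_le_pow_iff_left₀ (by positivity) (by positivity) (by norm_num)).1 h6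
    · intro z hz
      have e1 := h1 z hz
      rw [eval_mul, eval_C, eval_mul, eval_pow, eval_pow, eval_mul, eval_C,
        norm_mul, norm_mul, norm_pow, norm_pow, norm_mul, Complex.norm_real,
        Real.norm_eq_abs, abs_of_pos (by norm_num : (0 : ℝ) < 27 / 4)]
      have h4 : ‖(2 : ℂ)‖ = 2 := by simp
      rw [h4]
      set x := ‖Qx.eval z‖ with hx'
      set y := ‖Qy.eval z‖ with hy'
      have hx0 : 0 ≤ x := norm_nonneg _
      have hy0 : 0 ≤ y := norm_nonneg _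
      have h6 : 27 / 4 * (x ^ 2 * y) ≤ (x + y) ^ 3 := by
        have : (x + y) ^ 3 - 27 / 4 * (x ^ 2 * y) = (x - 2 * y) ^ 2 * (x + y / 4) := by ring
        have h8 : 0 ≤ (x - 2 * y) ^ 2 * (x + y / 4) := by positivity
        linarith
      exact le_trans h6 (by gcongr)

end Pool.Agent.R719.RD
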