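import Mathlib
import Pool.Agent.R719.RD.Loc

/-!
# Mahler measures of polynomials with a weakly dominating coefficient, II
-/

set_option autoImplicit false

open Polynomial Real

namespace Pool.Agent.R719.RD

/-- `w / |w|` -/
noncomputable def un (w : ℂ) : ℂ := w / ‖w‖

theorem un_norm {w : ℂ} (hw : w ≠ 0) : ‖un w‖ = 1 := by
  rw [un, norm_div, Complex.norm_real, norm_norm]
  exact div_self (norm_ne_zero_iff.2 hw)

theorem un_mul (w : ℂ) : (‖w‖ : ℂ) * un w = w := by
  rcases eq_or_ne w 0 with rfl | hw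
  · simp [un]
  · rw [un]
    have : (‖w‖ : ℂ) ≠ 0 := by exact_mod_cast norm_ne_zero_iff.2 hw
    field_simp

theorem conj_mul_of_norm_one {w : ℂ} (h : ‖w‖ = 1) : (starRingEnd ℂ) w * w = 1 := by
  rw [mul_comm, Complex.mul_conj, Complex.normSq_eq_norm_sq, h]
  simp

theorem sq_norm_add {s t : ℂ} (hs : ‖s‖ = 1) (ht : ‖t‖ = 1) :
    ‖s + t‖ ^ 2 = 2 + 2 * (s * (starRingEnd ℂ) t).re := by
  rw [← Complex.normSq_eq_norm_sq, Complex.normSq_add, Complex.normSq_eq_norm_sq,
    Complex.normSq_eq_norm_sq, hs, ht]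
  norm_num

/-- The binomial comparing the coefficients `j` and `k` of `p`. -/
noncomputable def bin (p : ℂ[X]) (k j : ℕ) : ℂ[X] :=
  C (un (p.coeff j)) * X ^ j + C (un (p.coeff k)) * X ^ k

theorem pt (p : ℂ[X]) (k : ℕ) (hk : p.coeff k ≠ 0)
    (hd : ∑ j ∈ p.support.erase k, ‖p.coeff j‖ ≤ ‖p.coeff k‖) (J : Finset ℕ)
    (hJ : J ⊆ p.support.erase k) (z : ℂ) (hz : ‖z‖ = 1) :
    ∑ j ∈ J, ‖p.coeff j‖ * ‖(bin p k j).eval z‖ ^ 2 ≤ 2 * ‖p.eval z‖ := by
  classical
  set e : ℂ := (starRingEnd ℂ) (un (p.coeff k) * z ^ k) with he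
  have h1 : ‖un (p.coeff k) * z ^ k‖ = 1 := by
    rw [norm_mul, un_norm hk, norm_pow, hz, one_pow, mul_one]
  have he1 : ‖e‖ = 1 := by rw [he, RCLike.norm_conj, h1]
  have hek : p.coeff k * z ^ k * e = ‖p.coeff k‖ := by
    conv_lhs => rw [← un_mul (p.coeff k)]
    have := conj_mul_of_norm_one h1
    rw [← he] at this
    linear_combination (‖p.coeff k‖ : ℂ) * this
  have hterm : ∀ j, p.coeff j ≠ 0 → ‖p.coeff j‖ * ‖(bin p k j).eval z‖ ^ 2 =
      2 * (‖p.coeff j‖ + (p.coeff j * z ^ j * e).re) := by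
    intro j hj
    have h2 : ‖un (p.coeff j) * z ^ j‖ = 1 := by
      rw [norm_mul, un_norm hj, norm_pow, hz, one_pow, mul_one]
    rw [bin, eval_add, eval_mul, eval_mul, eval_C, eval_C, eval_pow, eval_pow, eval_X,
      sq_norm_add h2 h1, ← he]
    have h3 : p.coeff j * z ^ j * e = (‖p.coeff j‖ : ℂ) * (un (p.coeff j) * z ^ j * e) := by
      conv_lhs => rw [← un_mul (p.coeff j)]
      ring
    rw [h3, Complex.re_ofReal_mul]
    ring
  have hnn : ∀ j, 0 ≤ ‖p.coeff j‖ + (p.coeff j * z ^ j * e).re := by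
    intro j
    have h2 : |(p.coeff j * z ^ j * e).re| ≤ ‖p.coeff j‖ := by
      refine le_trans (Complex.abs_re_le_norm _) ?_
      rw [norm_mul, norm_mul, norm_pow, hz, he1, one_pow, mul_one, mul_one]
    have := neg_abs_le (p.coeff j * z ^ j * e).re
    linarith
  have hsupp : ∀ j ∈ p.support.erase k, p.coeff j ≠ 0 := fun j hj =>
    mem_support_iff.1 (Finset.mem_of_mem_erase hj)
  calc ∑ j ∈ J, ‖p.coeff j‖ * ‖(bin p k j).eval z‖ ^ 2
      = ∑ j ∈ J, 2 * (‖p.coeff j‖ + (p.coeff j * z ^ j * e).re) :=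
        Finset.sum_congr rfl fun j hj => hterm j (hsupp j (hJ hj))
    _ ≤ ∑ j ∈ p.support.erase k, 2 * (‖p.coeff j‖ + (p.coeff j * z ^ j * e).re) :=
        Finset.sum_le_sum_of_subset_of_nonneg hJ fun j _ _ => mul_nonneg (by norm_num) (hnn j)
    _ = 2 * (∑ j ∈ p.support.erase k, ‖p.coeff j‖ +
          ∑ j ∈ p.support.erase k, (p.coeff j * z ^ j * e).re) := by
        rw [← Finset.mul_sum, Finset.sum_add_distrib]
    _ ≤ 2 * (‖p.coeff k‖ + ∑ j ∈ p.support.erase k, (p.coeff j * z ^ j * e).re) := by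
        gcongr
    _ = 2 * (p.eval z * e).re := by
        have h5 : p.eval z * e = ∑ j ∈ p.support, p.coeff j * z ^ j * e := by
          rw [eval_eq_sum, Polynomial.sum, Finset.sum_mul]
        rw [h5, ← Finset.add_sum_erase _ _ (mem_support_iff.2 hk), hek, Complex.add_re,
          Complex.ofReal_re, Complex.re_sum]
    _ ≤ 2 * ‖p.eval z‖ := by
        have h6 := Complex.re_le_norm (p.eval z * e)
        rw [norm_mul, he1, mul_one] at h6
        linarith

theorem coeff_le_mm {r : ℂ[X]} {n : ℕ} (h : ∀ N, n < N → r.coeff N = 0) :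
    ‖r.coeff n‖ ≤ r.mahlerMeasure := by
  rcases eq_or_ne (r.coeff n) 0 with h0 | h0
  · rw [h0, norm_zero]
    exact mahlerMeasure_nonneg r
  · have h1 : r.natDegree = n :=
      natDegree_eq_of_le_of_coeff_ne_zero (natDegree_le_iff_coeff_eq_zero.2 h) h0
    have h2 := leadingCoeff_le_mahlerMeasure r
    rwa [leadingCoeff, h1] at h2

theorem bin_mm (p : ℂ[X]) {k j : ℕ} (hk : p.coeff k ≠ 0) (hj : p.coeff j ≠ 0) (hjk : j ≠ k) :
    1 ≤ (bin p k j).mahlerMeasure := by
  rcases lt_or_gt_of_ne hjk with h | h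
  · have h1 : (bin p k j).coeff k = un (p.coeff k) := by
      rw [bin, coeff_add, coeff_C_mul_X_pow, coeff_C_mul_X_pow, if_neg (by omega), if_pos rfl,
        zero_add]
    have h2 := coeff_le_mm (r := bin p k j) (n := k) (by
      intro N hN
      rw [bin, coeff_add, coeff_C_mul_X_pow, coeff_C_mul_X_pow, if_neg (by omega),
        if_neg (by omega), zero_add])
    rwa [h1, un_norm hk] at h2
  · have h1 : (bin p k j).coeff j = un (p.coeff j) := by
      rw [bin, coeff_add, coeff_C_mul_X_pow, coeff_C_mul_X_pow, if_pos rfl, if_neg (by omega),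
        add_zero]
    have h2 := coeff_le_mm (r := bin p k j) (n := j) (by
      intro N hN
      rw [bin, coeff_add, coeff_C_mul_X_pow, coeff_C_mul_X_pow, if_neg (by omega),
        if_neg (by omega), zero_add])
    rwa [h1, un_norm hj] at h2

/-- **Second local estimate.** -/
theorem loc2 (p : ℂ[X]) (k : ℕ) (hk : p.coeff k ≠ 0)
    (hd : ∑ j ∈ p.support.erase k, ‖p.coeff j‖ ≤ ‖p.coeff k‖) (J : Finset ℕ)
    (hJ : J ⊆ p.support.erase k) (hJ0 : 0 < J.card) :
    ((J.card : ℝ) / 2) ^ J.card * ∏ j ∈ J, ‖p.coeff j‖ ≤ p.mahlerMeasure ^ J.card := by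
  classical
  have hp : p ≠ 0 := by
    rintro rfl
    simp at hk
  set r := J.card with hr
  have hr0 : (0 : ℝ) < r := by exact_mod_cast hJ0
  have hsupp : ∀ j ∈ J, p.coeff j ≠ 0 := fun j hj =>
    mem_support_iff.1 (Finset.mem_of_mem_erase (hJ hj))
  have hne : ∀ j ∈ J, j ≠ k := fun j hj => Finset.ne_of_mem_erase (hJ hj)
  set c : ℝ := ((r : ℝ) / 2) ^ r * ∏ j ∈ J, ‖p.coeff j‖ with hc
  have hc0 : 0 ≤ c := by positivity
  have h := mahler_mono (p := p ^ r) (q := C (c : ℂ) * (∏ j ∈ J, bin p k j) ^ 2)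
    (pow_ne_zero _ hp) ?_
  · rw [mm_pow, mahlerMeasure_mul, mahlerMeasure_const, mm_pow, Complex.norm_real,
      Real.norm_eq_abs, abs_of_nonneg hc0] at h
    have h1 : 1 ≤ (∏ j ∈ J, bin p k j).mahlerMeasure := by
      have h2 : (∏ j ∈ J, bin p k j).mahlerMeasure = ∏ j ∈ J, (bin p k j).mahlerMeasure := by
        rw [Finset.prod_eq_multiset_prod, prod_mahlerMeasure_eq_mahlerMeasure_prod,
          Multiset.map_map, Finset.prod_eq_multiset_prod]
        rfl
      rw [h2]
      calc (1 : ℝ) = ∏ j ∈ J, (1 : ℝ) := by simp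
        _ ≤ ∏ j ∈ J, (bin p k j).mahlerMeasure :=
          Finset.prod_le_prod (fun _ _ => zero_le_one)
            fun j hj => bin_mm p hk (hsupp j hj) (hne j hj)
    have h3 : (1 : ℝ) ≤ (∏ j ∈ J, bin p k j).mahlerMeasure ^ 2 := one_le_pow₀ h1
    nlinarith
  · intro z hz
    rw [eval_mul, eval_C, eval_pow, eval_pow, norm_mul, norm_pow, norm_pow, Complex.norm_real,
      Real.norm_eq_abs, abs_of_nonneg hc0, eval_prod, norm_prod, ← Finset.prod_pow]
    have h1 := pt p k hk hd J hJ z hz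
    set x : ℕ → ℝ := fun j => ‖p.coeff j‖ * ‖(bin p k j).eval z‖ ^ 2 with hx
    have hx0 : ∀ j, 0 ≤ x j := fun j => by positivity
    have h2 : ∏ j ∈ J, x j ≤ ((∑ j ∈ J, x j) / r) ^ r := by
      have h3 := Real.geom_mean_le_arith_mean J (fun _ => 1) x (fun _ _ => zero_le_one)
        (by rw [Finset.sum_const, nsmul_eq_mul, mul_one]; exact hr0) (fun j _ => hx0 j)
      simp only [Real.rpow_one, one_mul, Finset.sum_const, nsmul_eq_mul, mul_one] at h3
      rw [← hr] at h3
      have h4 := pow_le_pow_left₀ (Real.rpow_nonneg (Finset.prod_nonneg fun j _ => hx0 j) _) h3 r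
      rwa [Real.rpow_inv_natCast_pow (Finset.prod_nonneg fun j _ => hx0 j) (by omega)] at h4
    have h5 : c * ∏ j ∈ J, ‖(bin p k j).eval z‖ ^ 2 = ((r : ℝ) / 2) ^ r * ∏ j ∈ J, x j := by
      rw [hc, hx, Finset.prod_mul_distrib]
      ring
    rw [h5]
    calc ((r : ℝ) / 2) ^ r * ∏ j ∈ J, x j
        ≤ ((r : ℝ) / 2) ^ r * ((∑ j ∈ J, x j) / r) ^ r := by gcongr
      _ = ((∑ j ∈ J, x j) / 2) ^ r := by
          rw [← mul_pow]
          congr 1
          field_simp
      _ ≤ ‖p.eval z‖ ^ r := by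
          have : 0 ≤ (∑ j ∈ J, x j) / 2 := div_nonneg (Finset.sum_nonneg fun j _ => hx0 j) (by norm_num)
          gcongr
          linarith

/-- a trinomial -/
noncomputable def tri (a : ℝ) (α β : ℂ) (n : ℕ) : ℂ[X] :=
  C (a : ℂ) * (C 2 * X ^ n + C α + C β * X ^ (2 * n))

theorem tri_coeff_top (a : ℝ) (α β : ℂ) {n : ℕ} (hn : 0 < n) :
    (tri a α β n).coeff (2 * n) = a * β := by
  rw [tri, coeff_C_mul, coeff_add, coeff_add, coeff_C_mul_X_pow, coeff_C_mul_X_pow, coeff_C,
    if_neg (by omega), if_neg (by omega), if_pos rfl]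
  ring

theorem tri_coeff_gt (a : ℝ) (α β : ℂ) {n m : ℕ} (h : 2 * n < m) :
    (tri a α β n).coeff m = 0 := by
  rw [tri, coeff_C_mul, coeff_add, coeff_add, coeff_C_mul_X_pow, coeff_C_mul_X_pow, coeff_C,
    if_neg (by omega), if_neg (by omega), if_neg (by omega)]
  ring

/-- **First local estimate.** -/
theorem loc1 (p : ℂ[X]) (k : ℕ) (h0 : p.coeff 0 ≠ 0)
    (hd : ∑ j ∈ p.support.erase k, ‖p.coeff j‖ ≤ ‖p.coeff k‖) (hk0 : 0 < k)
    (hkD : k < p.natDegree) (h2 : 2 * k ≠ p.natDegree) :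
    9 / 8 * (‖p.coeff 0‖ * ‖p.leadingCoeff‖) ≤ p.mahlerMeasure ^ 2 := by
  classical
  have hp : p ≠ 0 := by
    rintro rfl
    simp at h0
  obtain ⟨M, hM⟩ : ∃ M, p.natDegree = k + M := ⟨p.natDegree - k, by omega⟩
  have hM0 : 0 < M := by omega
  have hMk : M ≠ k := by omega
  set D := p.natDegree with hD
  have hlc : p.coeff D ≠ 0 := by
    rw [hD]
    exact leadingCoeff_ne_zero.2 hp
  have hk : p.coeff k ≠ 0 := by
    intro h
    rw [h, norm_zero] at hd
    have h3 : ‖p.coeff 0‖ ≤ ∑ j ∈ p.support.erase k, ‖p.coeff j‖ :=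
      Finset.single_le_sum (f := fun j => ‖p.coeff j‖) (fun j _ => norm_nonneg _)
        (Finset.mem_erase.2 ⟨by omega, mem_support_iff.2 h0⟩)
    have : 0 < ‖p.coeff 0‖ := norm_pos_iff.2 h0
    linarith
  set a := ‖p.coeff 0‖ with ha
  set b := ‖p.coeff D‖ with hb
  have ha0 : 0 < a := norm_pos_iff.2 h0
  have hb0 : 0 < b := norm_pos_iff.2 hlc
  set u := un (p.coeff 0) with hu
  set v := un (p.coeff k) with hv
  set w := un (p.coeff D) with hw
  have hu1 : ‖u‖ = 1 := un_norm h0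
  have hv1 : ‖v‖ = 1 := un_norm hk
  have hw1 : ‖w‖ = 1 := un_norm hlc
  set cj := starRingEnd ℂ with hcj
  set Qx : ℂ[X] := C (a : ℂ) * bin p k 0 ^ 2 with hQx
  set Qy : ℂ[X] := C (b : ℂ) * bin p k D ^ 2 with hQy
  set R : ℂ[X] := X ^ M * tri a (u * cj v) (cj u * v) k - X ^ k * tri b (v * cj w) (w * cj v) M
    with hR
  have hx : a ≤ Qx.mahlerMeasure := by
    rw [hQx, mahlerMeasure_mul, mahlerMeasure_const, mm_pow, Complex.norm_real, Real.norm_eq_abs,
      abs_of_pos ha0]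
    have h3 := one_le_pow₀ (bin_mm p hk h0 (by omega)) (n := 2)
    nlinarith
  have hy : b ≤ Qy.mahlerMeasure := by
    rw [hQy, mahlerMeasure_mul, mahlerMeasure_const, mm_pow, Complex.norm_real, Real.norm_eq_abs,
      abs_of_pos hb0]
    have h3 := one_le_pow₀ (bin_mm p hk hlc (by omega)) (n := 2)
    nlinarith
  have hnx : ∀ z : ℂ, ‖Qx.eval z‖ = a * ‖(bin p k 0).eval z‖ ^ 2 := by
    intro z
    rw [hQx, eval_mul, eval_C, eval_pow, norm_mul, norm_pow, Complex.norm_real, Real.norm_eq_abs,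
      abs_of_pos ha0]
  have hny : ∀ z : ℂ, ‖Qy.eval z‖ = b * ‖(bin p k D).eval z‖ ^ 2 := by
    intro z
    rw [hQy, eval_mul, eval_C, eval_pow, norm_mul, norm_pow, Complex.norm_real, Real.norm_eq_abs,
      abs_of_pos hb0]
  have h1 : ∀ z : ℂ, ‖z‖ = 1 → ‖Qx.eval z‖ + ‖Qy.eval z‖ ≤ 2 * ‖p.eval z‖ := by
    intro z hz
    have h3 := pt p k hk hd {0, D} (by
      intro j hj
      rw [Finset.mem_insert, Finset.mem_singleton] at hj
      rcases hj with rfl | rfl
      · exact Finset.mem_erase.2 ⟨by omega, mem_support_iff.2 h0⟩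
      · exact Finset.mem_erase.2 ⟨by omega, mem_support_iff.2 hlc⟩) z hz
    rw [Finset.sum_pair (by omega)] at h3
    rw [hnx, hny]
    exact h3
  have hRz : ∀ z : ℂ, ‖z‖ = 1 → ‖R.eval z‖ ≤ |‖Qx.eval z‖ - ‖Qy.eval z‖| := by
    intro z hz
    have hzz : cj z * z = 1 := conj_mul_of_norm_one hz
    have huu : cj u * u = 1 := conj_mul_of_norm_one hu1
    have hvv : cj v * v = 1 := conj_mul_of_norm_one hv1
    have hww : cj w * w = 1 := conj_mul_of_norm_one hw1
    have hzk : cj z ^ k * z ^ k = 1 := by rw [← mul_pow, hzz, one_pow]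
    have hzM : cj z ^ M * z ^ M = 1 := by rw [← mul_pow, hzz, one_pow]
    have e1 : (((‖(bin p k 0).eval z‖ ^ 2 : ℝ)) : ℂ) * z ^ k =
        2 * z ^ k + u * cj v + cj u * v * z ^ (2 * k) := by
      have h4 : (((‖(bin p k 0).eval z‖ ^ 2 : ℝ)) : ℂ) =
          (bin p k 0).eval z * cj ((bin p k 0).eval z) := by
        rw [hcj, Complex.mul_conj, Complex.normSq_eq_norm_sq]
      have h5 : (bin p k 0).eval z = u + v * z ^ k := by
        rw [bin, eval_add, eval_mul, eval_mul, eval_C, eval_C, eval_pow, eval_pow, eval_X,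
          pow_zero, mul_one]
      have h6 : z ^ (2 * k) = z ^ k * z ^ k := by rw [two_mul, pow_add]
      rw [h4, h5, map_add, map_mul, map_pow, h6]
      linear_combination (z ^ k) * huu + (u * cj v + cj v * v * z ^ k) * hzk + z ^ k * hvv
    have e2 : (((‖(bin p k D).eval z‖ ^ 2 : ℝ)) : ℂ) * z ^ M =
        2 * z ^ M + v * cj w + w * cj v * z ^ (2 * M) := by
      have h4 : (((‖(bin p k D).eval z‖ ^ 2 : ℝ)) : ℂ) =
          (bin p k D).eval z * cj ((bin p k D).eval z) := by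
        rw [hcj, Complex.mul_conj, Complex.normSq_eq_norm_sq]
      have h5 : (bin p k D).eval z = z ^ k * (w * z ^ M + v) := by
        rw [bin, eval_add, eval_mul, eval_mul, eval_C, eval_C, eval_pow, eval_pow, eval_X, ← hw,
          ← hv, show z ^ D = z ^ k * z ^ M by rw [hM, pow_add]]
        ring
      have h6 : z ^ (2 * M) = z ^ M * z ^ M := by rw [two_mul, pow_add]
      rw [h4, h5, map_mul, map_add, map_mul, map_pow, map_pow, h6]
      linear_combination (w * z ^ M + v) * (cj w * cj z ^ M + cj v) * z ^ M * hzk +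
        (w * z ^ M + v) * cj w * hzM + z ^ M * hww + z ^ M * hvv
    have e3 : R.eval z = z ^ (k + M) * (((a * ‖(bin p k 0).eval z‖ ^ 2 -
        b * ‖(bin p k D).eval z‖ ^ 2 : ℝ)) : ℂ) := by
      rw [hR, eval_sub, eval_mul, eval_mul, eval_pow, eval_pow, eval_X, tri, tri]
      simp only [eval_mul, eval_add, eval_C, eval_pow, eval_X]
      rw [← e1, ← e2]
      push_cast
      rw [pow_add]
      ring
    rw [e3, norm_mul, norm_pow, hz, one_pow, one_mul, Complex.norm_real, Real.norm_eq_abs, hnx, hny]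
  have hRc : ∀ N, R.coeff N = (if M ≤ N then (tri a (u * cj v) (cj u * v) k).coeff (N - M) else 0) -
      (if k ≤ N then (tri b (v * cj w) (w * cj v) M).coeff (N - k) else 0) := by
    intro N
    rw [hR, coeff_sub, coeff_X_pow_mul', coeff_X_pow_mul']
  rw [leadingCoeff, ← hD, ← hb]
  rcases lt_or_gt_of_ne hMk with h | h
  · -- `M < k`
    have hRa : a ≤ R.mahlerMeasure := by
      have h3 := coeff_le_mm (r := R) (n := M + 2 * k) (by
        intro N hN
        rw [hRc, if_pos (by omega), if_pos (by omega), tri_coeff_gt _ _ _ (by omega),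
          tri_coeff_gt _ _ _ (by omega), sub_zero])
      rw [hRc, if_pos (by omega), if_pos (by omega), tri_coeff_gt b _ _ (by omega), sub_zero,
        show M + 2 * k - M = 2 * k by omega, tri_coeff_top _ _ _ hk0, norm_mul, norm_mul,
        hcj, RCLike.norm_conj, hu1, hv1, Complex.norm_real, Real.norm_eq_abs, abs_of_pos ha0] at h3
      linarith
    have h4 := key hp hb0 ha0 hy hx hRa (fun z hz => by rw [add_comm]; exact h1 z hz)
      (fun z hz => by rw [abs_sub_comm]; exact hRz z hz)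
    linarith
  · have hRb : b ≤ R.mahlerMeasure := by
      have h3 := coeff_le_mm (r := R) (n := k + 2 * M) (by
        intro N hN
        rw [hRc, if_pos (by omega), if_pos (by omega), tri_coeff_gt _ _ _ (by omega),
          tri_coeff_gt _ _ _ (by omega), sub_zero])
      rw [hRc, if_pos (by omega), if_pos (by omega), tri_coeff_gt a _ _ (by omega), zero_sub,
        show k + 2 * M - k = 2 * M by omega, tri_coeff_top _ _ _ hM0, norm_neg, norm_mul, norm_mul,
        hcj, RCLike.norm_conj, hw1, hv1, Complex.norm_real, Real.norm_eq_abs, abs_of_pos hb0] at h3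
      linarith
    exact key hp ha0 hb0 hx hy hRb h1 hRz

end Pool.Agent.R719.RD
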