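import Mathlib
import Pool.Agent.R719.RD.Dom
import Pool.Agent.R719.DS.Glob
import Pool.Agent.R719.DS.Arith
import Pool.Agent.H58P.Ht

/-!
# Heights of numbers whose minimal polynomial has dominating coefficients at many places
-/

set_option autoImplicit false

open Polynomial NumberField Module

namespace Pool.Agent.R719.RD

open Pool.Agent.R719.DS (height_ge fiber_le log_norm norm_ge_one int_coeff)
open Pool.Agent.H58P (Qb ht)

/-- The coefficient `k` of `p` is at least the sum of the other coefficients, in absolute value. -/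
def Dominant (p : ℂ[X]) (k : ℕ) : Prop :=
  ∑ j ∈ p.support.erase k, ‖p.coeff j‖ ≤ ‖p.coeff k‖

/-- Some coefficient of `p` dominates the others, and it is neither the first, nor the last, nor
the middle coefficient. -/
def Lopsided (p : ℂ[X]) : Prop :=
  ∃ k, 0 < k ∧ k < p.natDegree ∧ 2 * k ≠ p.natDegree ∧ Dominant p k

noncomputable section

/-- `|log |z||` -/
def al (z : ℂ) : ℝ := Real.posLog ‖z‖ + Real.posLog ‖z⁻¹‖

theorem al_nonneg (z : ℂ) : 0 ≤ al z := add_nonneg Real.posLog_nonneg Real.posLog_nonneg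

theorem al_eq {z : ℂ} : al z = 2 * Real.posLog ‖z‖ - Real.log ‖z‖ := by
  have h := Real.posLog_sub_posLog_inv (x := ‖z‖)
  rw [al, norm_inv]
  linarith

theorem logMM {p : ℂ[X]} (hp : p.Monic) :
    Real.log p.mahlerMeasure = (p.roots.map fun z => Real.posLog ‖z‖).sum := by
  rw [← logMahlerMeasure_eq_log_MahlerMeasure,
    logMahlerMeasure_eq_log_leadingCoeff_add_sum_log_roots, hp.leadingCoeff, norm_one,
    Real.log_one, zero_add]

theorem log_ms (s : Multiset ℂ) (h : ∀ z ∈ s, z ≠ 0) :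
    Real.log ‖s.prod‖ = (s.map fun z => Real.log ‖z‖).sum := by
  induction s using Multiset.induction_on with
  | empty => simp
  | cons a s ih =>
    have h1 : s.prod ≠ 0 := Multiset.prod_ne_zero fun h0 => h 0 (Multiset.mem_cons_of_mem h0) rfl
    rw [Multiset.prod_cons, Multiset.map_cons, Multiset.sum_cons, norm_mul,
      Real.log_mul (norm_ne_zero_iff.2 (h a (Multiset.mem_cons_self a s)))
        (norm_ne_zero_iff.2 h1), ih fun z hz => h z (Multiset.mem_cons_of_mem hz)]

theorem log_coeff_zero {p : ℂ[X]} (hp : p.Monic) (h0 : p.coeff 0 ≠ 0) :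
    Real.log ‖p.coeff 0‖ = (p.roots.map fun z => Real.log ‖z‖).sum := by
  have h1 := (IsAlgClosed.splits p).coeff_zero_eq_prod_roots_of_monic hp
  have h2 : ∀ z ∈ p.roots, z ≠ 0 := by
    rintro z hz rfl
    have := (mem_roots'.1 hz).2
    rw [IsRoot, ← coeff_zero_eq_eval_zero] at this
    exact h0 this
  rw [h1, norm_mul, norm_pow, norm_neg, norm_one, one_pow, one_mul]
  exact log_ms _ h2

theorem al_sum {p : ℂ[X]} (hp : p.Monic) (h0 : p.coeff 0 ≠ 0) :
    (p.roots.map al).sum = 2 * Real.log p.mahlerMeasure - Real.log ‖p.coeff 0‖ := by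
  rw [logMM hp, log_coeff_zero hp h0]
  induction p.roots using Multiset.induction_on with
  | empty => simp
  | cons a s ih =>
    simp only [Multiset.map_cons, Multiset.sum_cons]
    rw [ih, al_eq]
    ring

/-- **The local estimate, for the roots.** -/
theorem lop_sum {p : ℂ[X]} (hp : p.Monic) (h0 : p.coeff 0 ≠ 0) (hl : Lopsided p) :
    Real.log (9 / 8) ≤ (p.roots.map al).sum := by
  obtain ⟨k, hk0, hkD, h2, hd⟩ := hl
  have h := loc1 p k h0 hd hk0 hkD h2
  rw [hp.leadingCoeff, norm_one, mul_one] at h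
  have hc : 0 < ‖p.coeff 0‖ := norm_pos_iff.2 h0
  have h3 := Real.log_le_log (by positivity) h
  rw [Real.log_mul (by norm_num) hc.ne', Real.log_pow] at h3
  rw [al_sum hp h0]
  push_cast at h3
  linarith

variable {K L : Type} [Field K] [NumberField K] [Field L] [NumberField L] [Algebra K L]

theorem sum_fib (x : L) (u : ℂ → ℝ) (hu : ∀ z, 0 ≤ u z) :
    ∑ φ : K →+* ℂ, (((minpoly K x).map φ).roots.map u).sum ≤ ∑ ψ : L →+* ℂ, u (ψ x) := by
  classical
  refine le_trans (Finset.sum_le_sum fun (φ : K →+* ℂ) (_ : φ ∈ Finset.univ) =>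
    fiber_le φ x u hu) ?_
  rw [← Finset.sum_fiberwise (s := Finset.univ)
    (g := fun ψ : L →+* ℂ => ψ.comp (algebraMap K L))]

theorem glob1 (x : L) (hx : x ≠ 0) :
    (Nat.card {φ : K →+* ℂ // Lopsided ((minpoly K x).map φ)} : ℝ) * Real.log (9 / 8) ≤
      2 * Height.logHeight₁ x := by
  classical
  have : FiniteDimensional K L := FiniteDimensional.right ℚ K L
  have hxi : IsIntegral K x := IsIntegral.of_finite K x
  have h1 : ∑ ψ : L →+* ℂ, al (ψ x) ≤ 2 * Height.logHeight₁ x := by
    have h2 := height_ge x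
    have h3 := height_ge x⁻¹
    rw [Height.logHeight₁_inv] at h3
    have h4 : ∑ ψ : L →+* ℂ, al (ψ x) =
        ∑ ψ : L →+* ℂ, Real.posLog ‖ψ x‖ + ∑ ψ : L →+* ℂ, Real.posLog ‖ψ x⁻¹‖ := by
      rw [← Finset.sum_add_distrib]
      refine Finset.sum_congr rfl fun ψ _ => ?_
      rw [al, map_inv₀]
    linarith
  refine le_trans ?_ (le_trans (sum_fib (K := K) x al al_nonneg) h1)
  have h5 : ∀ φ : K →+* ℂ, (if Lopsided ((minpoly K x).map φ) then Real.log (9 / 8) else 0) ≤
      (((minpoly K x).map φ).roots.map al).sum := by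
    intro φ
    split_ifs with h
    · refine lop_sum ((minpoly.monic hxi).map φ) ?_ h
      rw [coeff_map]
      exact (map_ne_zero φ).2 (minpoly.coeff_zero_ne_zero hxi hx)
    · exact Multiset.sum_nonneg fun y hy => by
        obtain ⟨z, -, rfl⟩ := Multiset.mem_map.1 hy
        exact al_nonneg z
  refine le_trans (le_of_eq ?_) (Finset.sum_le_sum fun φ _ => h5 φ)
  rw [← Finset.sum_filter, Finset.sum_const, nsmul_eq_mul, Nat.card_eq_fintype_card,
    Fintype.card_subtype]

theorem glob2 (x : L) (hx : IsIntegral ℤ x) (J : Finset ℕ) (hJ : 0 < J.card)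
    (hJ0 : ∀ j ∈ J, (minpoly K x).coeff j ≠ 0)
    (hd : ∀ φ : K →+* ℂ, ∃ k, k ∉ J ∧ Dominant ((minpoly K x).map φ) k) :
    (finrank ℚ K : ℝ) * Real.log (J.card / 2) ≤ Height.logHeight₁ x := by
  classical
  have : FiniteDimensional K L := FiniteDimensional.right ℚ K L
  have hxi : IsIntegral K x := IsIntegral.of_finite K x
  set r := J.card with hr
  have hr0 : (0 : ℝ) < r := by exact_mod_cast hJ
  have h1 : ∑ φ : K →+* ℂ, Real.log ((minpoly K x).map φ).mahlerMeasure ≤ Height.logHeight₁ x := by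
    refine le_trans (le_of_eq ?_) (le_trans (sum_fib (K := K) x (fun z => Real.posLog ‖z‖)
      fun z => Real.posLog_nonneg) (height_ge x))
    exact Finset.sum_congr rfl fun φ _ => logMM ((minpoly.monic hxi).map φ)
  have h2 : ∀ φ : K →+* ℂ, r * Real.log (r / 2) + ∑ j ∈ J, Real.log ‖φ ((minpoly K x).coeff j)‖ ≤
      r * Real.log ((minpoly K x).map φ).mahlerMeasure := by
    intro φ
    obtain ⟨k, hkJ, hk⟩ := hd φ
    set p := (minpoly K x).map φ with hp
    have hc : ∀ j ∈ J, p.coeff j ≠ 0 := by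
      intro j hj
      rw [hp, coeff_map]
      exact (map_ne_zero φ).2 (hJ0 j hj)
    have hJs : J ⊆ p.support.erase k := by
      intro j hj
      rw [Finset.mem_erase, Polynomial.mem_support_iff]
      exact ⟨fun h => hkJ (h ▸ hj), hc j hj⟩
    have hk0 : p.coeff k ≠ 0 := by
      intro h
      rw [Dominant, h, norm_zero] at hk
      obtain ⟨j, hj⟩ := Finset.card_pos.1 hJ
      have h3 : ‖p.coeff j‖ ≤ ∑ j ∈ p.support.erase k, ‖p.coeff j‖ :=
        Finset.single_le_sum (f := fun j => ‖p.coeff j‖) (fun j _ => norm_nonneg _) (hJs hj)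
      have : 0 < ‖p.coeff j‖ := norm_pos_iff.2 (hc j hj)
      linarith
    have h3 := loc2 p k hk0 hk J hJs hJ
    have hprod : 0 < ∏ j ∈ J, ‖p.coeff j‖ :=
      Finset.prod_pos fun j hj => norm_pos_iff.2 (hc j hj)
    have h4 := Real.log_le_log (by positivity) h3
    rw [Real.log_mul (by positivity) hprod.ne', Real.log_pow, Real.log_pow, Real.log_prod
      (fun j hj => norm_ne_zero_iff.2 (hc j hj))] at h4
    have h5 : ∑ j ∈ J, Real.log ‖p.coeff j‖ = ∑ j ∈ J, Real.log ‖φ ((minpoly K x).coeff j)‖ :=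
      Finset.sum_congr rfl fun j _ => by rw [hp, coeff_map]
    rw [← h5]
    exact h4
  have h3 := Finset.sum_le_sum fun (φ : K →+* ℂ) (_ : φ ∈ Finset.univ) => h2 φ
  rw [Finset.sum_add_distrib, Finset.sum_const, Finset.card_univ, NumberField.Embeddings.card,
    ← Finset.mul_sum, Finset.sum_comm, nsmul_eq_mul] at h3
  have h4 : 0 ≤ ∑ j ∈ J, ∑ φ : K →+* ℂ, Real.log ‖φ ((minpoly K x).coeff j)‖ := by
    refine Finset.sum_nonneg fun j hj => ?_
    rw [log_norm _ (hJ0 j hj)]
    exact Real.log_nonneg (norm_ge_one _ (int_coeff x hx j) (hJ0 j hj))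
  have h5 : (r : ℝ) * (finrank ℚ K * Real.log (r / 2)) ≤ r * Height.logHeight₁ x := by
    calc (r : ℝ) * (finrank ℚ K * Real.log (r / 2))
        = finrank ℚ K * (r * Real.log (r / 2)) := by ring
      _ ≤ r * ∑ φ : K →+* ℂ, Real.log ((minpoly K x).map φ).mahlerMeasure := by linarith
      _ ≤ r * Height.logHeight₁ x := by gcongr
  exact le_of_mul_le_mul_left h5 hr0

theorem ht_eq (φ : L →+* Qb) (z : L) :
    (finrank ℚ L : ℝ) * NumberField.absLogHeight₁ (φ z) = Height.logHeight₁ z := by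
  have h1 := Pool.Agent.Helper259.AbsHt.absLogHeight_eq L φ ![1, z]
  have e : (fun i => φ (![1, z] i)) = ![1, φ z] := by
    funext i
    fin_cases i
    · simp
    · simp
  rw [e] at h1
  have h2 : Height.logHeight ![1, z] = Height.logHeight₁ z := by
    rw [Height.logHeight₁_eq_logHeight, Height.logHeight_swap]
  have hpos : (0 : ℝ) < finrank ℚ L := by exact_mod_cast finrank_pos (R := ℚ) (M := L)
  rw [Pool.Agent.H58P.absLogHeight₁_eq, ht, h1, h2]
  field_simp

end

end Pool.Agent.R719.RD
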